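import Pool.Agent.SNP.Final
import Pool.Agent.SNP.D1
import Pool.Agent.SNP.E.Aff

/-!
# MP_e566f8_ag: full dynamical Mordell-Lang for split rational maps of `(P^1)^N` over `ℂ`

The theorem `result` contains the assertion of Q1 (`N = 2`, curves) and proves it in every dimension and for all
Zariski closed subsets: for all `N`, all rational maps `f_1, ..., f_N` of the complex projective line (of any degrees,
constants and Moebius maps allowed), every point `α ∈ (P^1)^N(ℂ)` and every Zariski closed subset `V ⊆ (P^1)^N`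
(of any dimension, not necessarily irreducible), the return set `{n | Φ^n(α) ∈ V}` is a finite union of arithmetic
progressions.  Points of the projective line are given by nonzero vectors of homogeneous coordinates.
-/

set_option autoImplicit false

namespace Pool.Agent.Results.MP_e566f8_ag.SplitRationalMaps

/-- `[F : G]` is a rational self-map of degree `d` of the projective line: `F` and `G` are binary forms of the same
degree `d` without common zero in the projective line (`d = 0` are the constant maps) -/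
structure IsRatMap (F G : MvPolynomial (Fin 2) ℂ) (d : ℕ) : Prop where
  homF : F.IsHomogeneous d
  homG : G.IsHomogeneous d
  no_common_zero : ∀ v : Fin 2 → ℂ, MvPolynomial.eval v F = 0 → MvPolynomial.eval v G = 0 → v = 0

/-- the map `v ↦ (F(v), G(v))` on homogeneous coordinates -/
noncomputable def lift (F G : MvPolynomial (Fin 2) ℂ) (v : Fin 2 → ℂ) : Fin 2 → ℂ :=
  ![MvPolynomial.eval v F, MvPolynomial.eval v G]

/-- `H`, a polynomial in the variables `(i, 0)`, `(i, 1)` for `i < N`, is homogeneous in each pair of variables -/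
def MultiHomogeneous {N : ℕ} (H : MvPolynomial (Fin N × Fin 2) ℂ) : Prop :=
  ∀ i : Fin N, ∃ e : ℕ, ∀ m ∈ H.support, m (i, 0) + m (i, 1) = e

/-- the point of `(P^1)^N` with homogeneous coordinates `u` lies on the closed set defined by the set `Z` of
multihomogeneous polynomials; every Zariski closed subset of `(P^1)^N` is defined in this way -/
def OnZeroSet {N : ℕ} (Z : Set (MvPolynomial (Fin N × Fin 2) ℂ)) (u : Fin N → Fin 2 → ℂ) : Prop :=
  ∀ H ∈ Z, MvPolynomial.eval (fun x : Fin N × Fin 2 => u x.1 x.2) H = 0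

/-- the arithmetic progression `{a + k r : r ≥ 0}`; `k = 0` is allowed -/
def progression (a k : ℕ) : Set ℕ := {n | ∃ r : ℕ, n = a + k * r}

/-- the return set `{n ≥ 0 : Φ^n(α) ∈ V}`, where `Φ` is the product of the maps `[F i : G i]`, the point `α` has
homogeneous coordinates `a`, and `V` is the closed set defined by `Z` -/
def returnSet {N : ℕ} (F G : Fin N → MvPolynomial (Fin 2) ℂ) (a : Fin N → Fin 2 → ℂ)
    (Z : Set (MvPolynomial (Fin N × Fin 2) ℂ)) : Set ℕ :=
  {n | OnZeroSet Z (fun i => (lift (F i) (G i))^[n] (a i))}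

theorem result (N : ℕ) (d : Fin N → ℕ) (F G : Fin N → MvPolynomial (Fin 2) ℂ)
    (hFG : ∀ i, IsRatMap (F i) (G i) (d i)) (a : Fin N → Fin 2 → ℂ) (ha : ∀ i, a i ≠ 0)
    (Z : Set (MvPolynomial (Fin N × Fin 2) ℂ)) (hZ : ∀ H ∈ Z, MultiHomogeneous H) :
    ∃ T : Finset (ℕ × ℕ), returnSet F G a Z = ⋃ t ∈ T, progression t.1 t.2 := by
  classical
  have hl : ∀ i, Pool.Agent.Helper59.DML.hlift (Pool.Agent.SNP.lcf (d i) (F i) (G i)) =
      lift (F i) (G i) := fun i =>
    Pool.Agent.SNP.hlift_lcf ⟨(hFG i).homF, (hFG i).homG, (hFG i).no_common_zero⟩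
  have key : ∀ H, MultiHomogeneous H → Pool.Agent.Helper59.DML.EP (fun n =>
      MvPolynomial.eval (fun x : Fin N × Fin 2 => (lift (F x.1) (G x.1))^[n] (a x.1) x.2) H = 0) := by
    intro H hH
    have h := Pool.Agent.SNP.all (Fin N) d (fun i => Pool.Agent.SNP.lcf (d i) (F i) (G i))
      (fun i u hu h0 => hu (by
        rw [hl] at h0
        exact (hFG i).no_common_zero u (congrFun h0 0) (congrFun h0 1))) a ha H hH
    refine h.congr fun n => ?_
    simp only [hl]
  -- a finite subset of `Z` generates the same ideal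
  obtain ⟨T, hTZ, hT⟩ : ∃ T : Finset (MvPolynomial (Fin N × Fin 2) ℂ),
      (T : Set (MvPolynomial (Fin N × Fin 2) ℂ)) ⊆ Z ∧ Ideal.span Z = Ideal.span (T : Set _) := by
    have h := (Submodule.fg_span_iff_fg_span_finset_subset (R := MvPolynomial (Fin N × Fin 2) ℂ) Z).1
      (IsNoetherian.noetherian _)
    exact h
  have h1 : Pool.Agent.Helper59.DML.EP (fun n => ∀ H ∈ T,
      MvPolynomial.eval (fun x : Fin N × Fin 2 => (lift (F x.1) (G x.1))^[n] (a x.1) x.2) H = 0) :=
    Pool.Agent.Helper59.DML.EP.forall_mem T (fun H hH => key H (hZ H (hTZ hH)))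
  have h2 : Pool.Agent.Helper59.DML.EP (fun n => n ∈ returnSet F G a Z) := by
    refine h1.congr fun n => ?_
    have e1 : n ∈ returnSet F G a Z ↔ Ideal.span Z ≤ RingHom.ker
        (MvPolynomial.eval (fun x : Fin N × Fin 2 => (lift (F x.1) (G x.1))^[n] (a x.1) x.2)) := by
      rw [Ideal.span_le]
      exact ⟨fun h p hp => (RingHom.mem_ker).2 (h p hp), fun h p hp => (RingHom.mem_ker).1 (h hp)⟩
    rw [e1, hT, Ideal.span_le]
    exact ⟨fun h p hp => (RingHom.mem_ker).2 (h p hp), fun h p hp => (RingHom.mem_ker).1 (h hp)⟩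
  obtain ⟨T', hT'⟩ := Pool.Agent.SNP.EP_union h2
  refine ⟨T', ?_⟩
  have h3 : returnSet F G a Z = {n | n ∈ returnSet F G a Z} := rfl
  rw [h3, hT']
  simp only [progression, mul_comm]

end Pool.Agent.Results.MP_e566f8_ag.SplitRationalMaps
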